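import Mathlib
import Pool.Agent.Q105.IntegralVar

/-!
# A nonabelian variety in which every group has an integral

For an odd prime `p` the groups of exponent dividing `p` and class at most two form such a variety.

Proof.  Let `G` be such a group and `2 m = p + 1`.  With `x ⊕ y = x y [y, x] ^ m` the set `G` is a
vector space over the field with `p` elements, and the derived subgroup `D` of `G` is a subspace of
it.  Let `π` be a linear projection onto `D`.  As `π (x y) = π x π y [x, y] ^ m`, the map
`σ x = x⁻¹ (π x) ^ 2` is an automorphism of `G`; it satisfies `σ ^ 2 = 1`, and `x σ(x)⁻¹` is `x ^ 2`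
modulo `D`.  So the derived subgroup of the semidirect product of `G` and `⟨σ⟩` contains `D` and all
squares, hence it is `G`.
-/

set_option autoImplicit false

open scoped commutatorElement

namespace Pool.Agent.Results.MP_fbf3cb_al.ExponentPClassTwo

open Pool.Agent.Q105.IntegralVar

universe u

/-- `G` satisfies the laws `w = 1`, `w` in `W` (words in the variables `x₀, x₁, x₂, …`): `G` belongs
to the variety defined by `W`. -/
def InVariety (W : Set (FreeGroup ℕ)) (G : Type u) [Group G] : Prop :=
  ∀ w ∈ W, ∀ f : ℕ → G, FreeGroup.lift f w = 1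

/-- `G` has an integral: `G` is isomorphic to the derived subgroup of a group `H`. -/
def HasIntegral (G : Type u) [Group G] : Prop :=
  ∃ (H : Type u) (_ : Group H), Nonempty (commutator H ≃* G)

/-- The laws `x₀ ^ p = 1` and `[[x₀, x₁], x₂] = 1` (exponent dividing `p`, class at most two). -/
def laws (p : ℕ) : Set (FreeGroup ℕ) :=
  {FreeGroup.of 0 ^ p, ⁅⁅FreeGroup.of 0, FreeGroup.of 1⁆, FreeGroup.of 2⁆}

theorem inVariety_iff (p : ℕ) (G : Type u) [Group G] : InVariety (laws p) G ↔
    (∀ x : G, x ^ p = 1) ∧ ∀ x y z : G, ⁅⁅x, y⁆, z⁆ = 1 := by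
  constructor
  · intro h
    refine ⟨fun x => ?_, fun x y z => ?_⟩
    · have := h _ (Or.inl rfl) (fun _ => x)
      rwa [map_pow, FreeGroup.lift_apply_of] at this
    · have := h _ (Or.inr rfl) (fun n => if n = 0 then x else if n = 1 then y else z)
      rw [map_commutatorElement, map_commutatorElement, FreeGroup.lift_apply_of,
        FreeGroup.lift_apply_of, FreeGroup.lift_apply_of] at this
      simpa using this
  · rintro ⟨h1, h2⟩ w (rfl | rfl) f
    · rw [map_pow, FreeGroup.lift_apply_of, h1]
    · rw [map_commutatorElement, map_commutatorElement, h2]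

theorem cl2_of {G : Type u} [Group G] (h : ∀ x y z : G, ⁅⁅x, y⁆, z⁆ = 1) : Cl2 G := by
  intro x y z
  have e : cm x y = ⁅x⁻¹, y⁻¹⁆ := by
    unfold cm; rw [commutatorElement_def]; group
  rw [e]
  exact commutatorElement_eq_one_iff_mul_comm.1 (h _ _ _)

theorem of_cl2 {G : Type u} [Group G] (h : Cl2 G) (x y z : G) : ⁅⁅x, y⁆, z⁆ = 1 := by
  rw [commutatorElement_eq_one_iff_mul_comm]
  have e : ⁅x, y⁆ = cm x⁻¹ y⁻¹ := by
    unfold cm; rw [commutatorElement_def]; group
  rw [e]
  exact h _ _ _

/-- For every odd prime `p` the variety of the groups of exponent dividing `p` and class at most two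
contains a nonabelian group, and each of its groups has an integral; indeed each group `G` in it is
isomorphic to the derived subgroup of a group `H` in which the derived subgroup has index one or
two. -/
theorem result (p : ℕ) (hp : p.Prime) (hodd : Odd p) :
    (∃ (G : Type) (_ : Group G), InVariety (laws p) G ∧ ∃ a b : G, a * b ≠ b * a) ∧
    (∀ (G : Type u) [Group G], InVariety (laws p) G → HasIntegral G) ∧
    ∀ (G : Type u) [Group G], InVariety (laws p) G →
      ∃ (H : Type u) (_ : Group H), Nonempty (commutator H ≃* G) ∧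
        ((commutator H).index = 1 ∨ (commutator H).index = 2) := by
  have hF : Fact p.Prime := ⟨hp⟩
  refine ⟨⟨Hs p, inferInstance, ?_, Hs.ne hp.one_lt⟩, ?_, ?_⟩
  · rw [inVariety_iff]
    exact ⟨Hs.exp hodd, of_cl2 (Hs.cl2 p)⟩
  · intro G _ hG
    rw [inVariety_iff] at hG
    obtain ⟨H, iH, h1, _⟩ := exists_integral hodd (cl2_of hG.2) hG.1
    exact ⟨H, iH, h1⟩
  · intro G _ hG
    rw [inVariety_iff] at hG
    obtain ⟨H, iH, h1, h2⟩ := exists_integral hodd (cl2_of hG.2) hG.1
    exact ⟨H, iH, h1, (Nat.dvd_prime Nat.prime_two).1 h2⟩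

end Pool.Agent.Results.MP_fbf3cb_al.ExponentPClassTwo
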